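import Pool.Agent.H5.FR2.Stmts

/-! # URB: second moment lower bound for the rank -/

set_option autoImplicit false

namespace Pool.Agent.H5.FR2

open Finset Pool.Agent.H5.FR Pool.Agent.H80
open scoped ComplexOrder

namespace H62RKT

variable {X : Type} [Fintype X] [DecidableEq X]

lemma trace_conj (U : Matrix.unitaryGroup X ℂ) (A : Matrix X X ℂ) :
    (Unitary.conjStarAlgAut ℂ _ U A).trace = A.trace := by
  rw [Unitary.conjStarAlgAut_apply, Matrix.trace_mul_comm, ← mul_assoc]
  rw [show (star (U : Matrix X X ℂ)) * (U : Matrix X X ℂ) = 1 from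
    (Matrix.mem_unitaryGroup_iff').1 U.2, one_mul]

lemma tr1_eq {A : Matrix X X ℂ} (hA : A.IsHermitian) : tr1 A = ∑ i, hA.eigenvalues i := by
  unfold tr1
  rw [hA.trace_eq_sum_eigenvalues]
  simp

lemma tr2_eq {A : Matrix X X ℂ} (hA : A.IsHermitian) : tr2 A = ∑ i, hA.eigenvalues i ^ 2 := by
  unfold tr2
  have h : A * A = Unitary.conjStarAlgAut ℂ _ hA.eigenvectorUnitary
      (Matrix.diagonal (RCLike.ofReal ∘ hA.eigenvalues) *
        Matrix.diagonal (RCLike.ofReal ∘ hA.eigenvalues)) := by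
    rw [map_mul, ← hA.spectral_theorem]
  rw [h, trace_conj, Matrix.diagonal_mul_diagonal, Matrix.trace_diagonal]
  simp [sq]

end H62RKT

theorem rkt_thm : RKTStmt := by
  intro X Y _ _ _ _ M
  have hA : (M * M.conjTranspose).IsHermitian := Matrix.isHermitian_mul_conjTranspose_self M
  rw [H62RKT.tr1_eq hA, H62RKT.tr2_eq hA, ← Matrix.rank_self_mul_conjTranspose M,
    hA.rank_eq_card_non_zero_eigs]
  classical
  have h1 : ∑ i, hA.eigenvalues i =
      ∑ i ∈ univ.filter (fun i => hA.eigenvalues i ≠ 0), hA.eigenvalues i := by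
    rw [Finset.sum_filter_ne_zero]
  rw [h1]
  refine (sq_sum_le_card_mul_sum_sq).trans ?_
  rw [Fintype.card_subtype]
  refine mul_le_mul_of_nonneg_left ?_ (Nat.cast_nonneg _)
  exact Finset.sum_le_sum_of_subset_of_nonneg (Finset.filter_subset _ _)
    (fun i _ _ => sq_nonneg _)

end Pool.Agent.H5.FR2
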